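import Mathlib
import Pool.Agent.V11108.AvgShadow
import Pool.Agent.V11108.Diag

/-!
# The asymptotic average shadowing property passes to factors
-/

set_option autoImplicit false
open Filter Topology

namespace Pool.Agent.Results.MP_bdee7b_an.AsymptoticAverageShadowing

open Pool.Agent.V11108.AvgShadow Pool.Agent.V11108.Diag

/-- `x` is an asymptotic average pseudo-orbit of `f`. -/
def IsAsymptoticAveragePseudoOrbit {X : Type} [MetricSpace X] (f : X → X) (x : ℕ → X) : Prop :=
  Tendsto (fun n : ℕ => (∑ i ∈ Finset.range n, dist (f (x i)) (x (i + 1))) / (n : ℝ)) atTop (𝓝 0)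

/-- The sequence `x` is asymptotically shadowed in average by the point `z`. -/
def AsymptoticallyShadowedInAverage {X : Type} [MetricSpace X] (f : X → X) (x : ℕ → X) (z : X) :
    Prop :=
  Tendsto (fun n : ℕ => (∑ i ∈ Finset.range n, dist (f^[i] z) (x i)) / (n : ℝ)) atTop (𝓝 0)

/-- The asymptotic average shadowing property. -/
def AsymptoticAverageShadowingProperty {X : Type} [MetricSpace X] (f : X → X) : Prop :=
  ∀ x : ℕ → X, IsAsymptoticAveragePseudoOrbit f x → ∃ z : X, AsymptoticallyShadowedInAverage f x z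

/-- **Theorem.** Every factor of a system with the asymptotic average shadowing property has the
asymptotic average shadowing property. -/
theorem result : ∀ (X Y : Type) [MetricSpace X] [CompactSpace X] [MetricSpace Y] [CompactSpace Y]
    (f : X → X) (g : Y → Y) (π : X → Y), Continuous f → Continuous g → Continuous π →
    Function.Surjective π → (∀ x, π (f x) = g (π x)) →
    AsymptoticAverageShadowingProperty f → AsymptoticAverageShadowingProperty g := by
  intro X Y _ _ _ _ f g π hf hg hπ hsurj hcomm hasp y hy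
  obtain ⟨D, hD1, hD⟩ := exists_bound X
  obtain ⟨DY, hDY1, hDY⟩ := exists_bound Y
  have hD0 : 0 < D := by linarith
  choose a ha using fun k m : ℕ => hsurj (y ((k + 1) * m))
  set b : ℕ → ℕ → ℝ := fun k i => D * (if (k + 1) ∣ i + 1 then (1:ℝ) else 0)
    + dist (y i) (g^[i % (k + 1)] (y ((k + 1) * (i / (k + 1))))) with hb
  have hb0 : ∀ k i, 0 ≤ b k i := by
    intro k i
    simp only [hb]
    split_ifs <;> positivity
  have hbC : ∀ k i, b k i ≤ D + DY := by
    intro k i
    simp only [hb]
    have := hDY (y i) (g^[i % (k + 1)] (y ((k + 1) * (i / (k + 1)))))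
    split_ifs <;> linarith
  have he : Tendsto (fun k : ℕ => (2 * D + 1) / ((k:ℝ) + 1)) atTop (𝓝 0) := by
    have : Tendsto (fun k : ℕ => ((k : ℝ) + 1)) atTop atTop :=
      tendsto_atTop_add_const_right _ _ tendsto_natCast_atTop_atTop
    exact this.const_div_atTop _
  have hsum : ∀ k, ∀ᶠ n : ℕ in atTop, ∑ i ∈ Finset.range n, b k i ≤
      ((2 * D + 1) / ((k:ℝ) + 1)) * n := by
    intro k
    have hk : (0:ℝ) < (k:ℝ) + 1 := by positivity
    obtain ⟨K, hK, herr⟩ := sum_err g hg (k + 1) (by omega) (1 / (2 * ((k:ℝ) + 1))) (by positivity)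
    have hy' := (tendsto_order.mp hy).2 (1 / (2 * ((k:ℝ) + 1) * K)) (by positivity)
    filter_upwards [hy', eventually_gt_atTop (k + 1)] with n h1 h2
    have hn0 : (0:ℝ) < n := by
      have : 0 < n := by omega
      exact_mod_cast this
    have hkn : (k:ℝ) + 1 ≤ n := by exact_mod_cast h2.le
    rw [div_lt_iff₀ hn0] at h1
    simp only [hb]
    rw [Finset.sum_add_distrib, ← Finset.mul_sum]
    have c1 := count_mult_le (k + 1) 0 n (by omega)
    simp only [add_zero] at c1
    push_cast at c1
    have c2 := herr y n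
    have c3 : K * ∑ j ∈ Finset.range n, jump g y j ≤ K * (1 / (2 * ((k:ℝ) + 1) * K) * n) :=
      mul_le_mul_of_nonneg_left h1.le hK.le
    have c4 : K * (1 / (2 * ((k:ℝ) + 1) * K) * n) = 1 / (2 * ((k:ℝ) + 1)) * n := by field_simp
    rw [c4] at c3
    have c5 : (1:ℝ) ≤ n / ((k:ℝ) + 1) := by rw [le_div_iff₀ hk]; linarith
    have c6 : D * (∑ i ∈ Finset.range n, (if (k + 1) ∣ i + 1 then (1:ℝ) else 0)) ≤
        D * (2 * (n / ((k:ℝ) + 1))) := by
      apply mul_le_mul_of_nonneg_left _ hD0.le
      linarith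
    have c7 : ((2 * D + 1) / ((k:ℝ) + 1)) * n = D * (2 * (n / ((k:ℝ) + 1)))
        + (1 / (2 * ((k:ℝ) + 1)) * n + 1 / (2 * ((k:ℝ) + 1)) * n) := by
      field_simp
      ring
    rw [c7]
    linarith
  obtain ⟨κ, hκmono, hκ1, hκ2⟩ := diag b (D + DY) (by linarith) hb0 hbC _ he hsum
  -- the pseudo-orbit upstairs
  set x : ℕ → X := fun i => blk f (a (κ i)) (κ i + 1) i with hx
  have hiter : ∀ r (x : X), π (f^[r] x) = g^[r] (π x) := by
    intro r x
    induction r with
    | zero => rfl
    | succ r ih => rw [Function.iterate_succ_apply', Function.iterate_succ_apply', hcomm, ih]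
  have hblk : ∀ i, dist (π (x i)) (y i) ≤ b (κ i) i := by
    intro i
    have : π (x i) = g^[i % (κ i + 1)] (y ((κ i + 1) * (i / (κ i + 1)))) := by
      simp only [hx]
      unfold blk
      rw [hiter, ha]
    rw [this, dist_comm]
    simp only [hb]
    split_ifs <;> linarith
  have hjump : ∀ i, dist (f (x i)) (x (i + 1)) ≤ b (κ i) i + D * ((κ (i + 1) : ℝ) - κ i) := by
    intro i
    rcases Nat.eq_or_lt_of_le (hκmono (Nat.le_succ i)) with h | h
    · have h1 := blk_jump f (a (κ i)) (κ i + 1) i D hD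
      have h2 : x (i + 1) = blk f (a (κ i)) (κ i + 1) (i + 1) := by
        simp only [hx]
        rw [show κ (i + 1) = κ i from h.symm]
      rw [h2]
      have h3 : ((κ (i + 1) : ℝ) - κ i) = 0 := by
        rw [show κ (i + 1) = κ i from h.symm]; ring
      rw [h3, mul_zero, add_zero]
      refine h1.trans ?_
      simp only [hb]
      have := dist_nonneg (x := y i)
        (y := g^[i % (κ i + 1)] (y ((κ i + 1) * (i / (κ i + 1)))))
      linarith
    · have h1 : (1:ℝ) ≤ (κ (i + 1) : ℝ) - κ i := by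
        have : (κ i : ℝ) + 1 ≤ κ (i + 1) := by exact_mod_cast h
        linarith
      have h2 := hD (f (x i)) (x (i + 1))
      have h3 := hb0 (κ i) i
      nlinarith
  have hxp : IsAsymptoticAveragePseudoOrbit f x := by
    have hlim : Tendsto (fun n : ℕ => (∑ i ∈ Finset.range n, b (κ i) i) / (n : ℝ)
        + D * ((κ n : ℝ) / n)) atTop (𝓝 0) := by
      have := hκ1.add (hκ2.const_mul D)
      simpa using this
    refine squeeze_zero (fun n => by positivity) (fun n => ?_) hlim
    have h1 : ∑ i ∈ Finset.range n, dist (f (x i)) (x (i + 1)) ≤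
        ∑ i ∈ Finset.range n, b (κ i) i + D * κ n := by
      calc _ ≤ ∑ i ∈ Finset.range n, (b (κ i) i + D * ((κ (i + 1) : ℝ) - κ i)) :=
            Finset.sum_le_sum (fun i _ => hjump i)
        _ = ∑ i ∈ Finset.range n, b (κ i) i + D * ((κ n : ℝ) - κ 0) := by
            rw [Finset.sum_add_distrib, ← Finset.mul_sum,
              Finset.sum_range_sub (fun i => (κ i : ℝ)) n]
        _ ≤ _ := by
            have : (0:ℝ) ≤ κ 0 := Nat.cast_nonneg _
            nlinarith
    calc _ ≤ (∑ i ∈ Finset.range n, b (κ i) i + D * κ n) / n :=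
          div_le_div_of_nonneg_right h1 (Nat.cast_nonneg n)
      _ = _ := by rw [add_div, mul_div_assoc]
  obtain ⟨z, hz⟩ := hasp x hxp
  refine ⟨π z, ?_⟩
  unfold AsymptoticallyShadowedInAverage at hz ⊢
  rw [Metric.tendsto_atTop]
  intro ε hε
  obtain ⟨K, hK, hproj⟩ := proj_bound π hπ (ε / 4) (by positivity)
  have e1 := (tendsto_order.mp hz).2 (ε / (4 * K)) (by positivity)
  have e2 := (tendsto_order.mp hκ1).2 (ε / 4) (by positivity)
  obtain ⟨N, hN⟩ := eventually_atTop.mp (e1.and (e2.and (eventually_gt_atTop 0)))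
  refine ⟨N, fun n hn => ?_⟩
  obtain ⟨h1, h2, h3⟩ := hN n hn
  have hn0 : (0:ℝ) < n := by exact_mod_cast h3
  rw [dist_zero_right, Real.norm_of_nonneg (by positivity)]
  rw [div_lt_iff₀ hn0] at h1 h2 ⊢
  have h5 : ∑ i ∈ Finset.range n, dist (g^[i] (π z)) (y i) ≤
      ∑ i ∈ Finset.range n, ((ε / 4 + K * dist (f^[i] z) (x i)) + b (κ i) i) := by
    apply Finset.sum_le_sum
    intro i _
    rw [← hiter]
    calc dist (π (f^[i] z)) (y i) ≤ dist (π (f^[i] z)) (π (x i)) + dist (π (x i)) (y i) :=
          dist_triangle _ _ _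
      _ ≤ _ := add_le_add (hproj _ _) (hblk i)
  rw [Finset.sum_add_distrib, Finset.sum_add_distrib, ← Finset.mul_sum] at h5
  simp only [Finset.sum_const, Finset.card_range, nsmul_eq_mul] at h5
  have h7 : K * ∑ i ∈ Finset.range n, dist (f^[i] z) (x i) ≤ K * (ε / (4 * K) * n) :=
    mul_le_mul_of_nonneg_left h1.le hK.le
  have h9 : K * (ε / (4 * K) * n) = ε / 4 * n := by field_simp
  rw [h9] at h7
  have h10 : 0 < ε * n := by positivity
  linarith

end Pool.Agent.Results.MP_bdee7b_an.AsymptoticAverageShadowing
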