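import Mathlib
import Pool.Agent.V11108.AvgShadow

/-!
# The average shadowing property passes to factors
-/

set_option autoImplicit false
open Filter Topology

namespace Pool.Agent.Results.MP_bdee7b_an.AverageShadowing

open Pool.Agent.V11108.AvgShadow

/-- `x` is a `δ`-average-pseudo-orbit of `f`. -/
def IsAveragePseudoOrbit {X : Type} [MetricSpace X] (f : X → X) (δ : ℝ) (x : ℕ → X) : Prop :=
  ∃ N : ℕ, ∀ n ≥ N, ∀ k : ℕ,
    (∑ i ∈ Finset.range n, dist (f (x (i + k))) (x (i + k + 1))) / (n : ℝ) < δ

/-- The sequence `x` is `ε`-shadowed in average by the point `z`. -/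
def ShadowedInAverage {X : Type} [MetricSpace X] (f : X → X) (ε : ℝ) (x : ℕ → X) (z : X) : Prop :=
  limsup (fun n : ℕ => (∑ i ∈ Finset.range n, dist (f^[i] z) (x i)) / (n : ℝ)) atTop < ε

/-- The average shadowing property. -/
def AverageShadowingProperty {X : Type} [MetricSpace X] (f : X → X) : Prop :=
  ∀ ε : ℝ, 0 < ε → ∃ δ : ℝ, 0 < δ ∧ ∀ x : ℕ → X, IsAveragePseudoOrbit f δ x →
    ∃ z : X, ShadowedInAverage f ε x z

theorem avg_bounds {X : Type} [MetricSpace X] (D : ℝ) (hD0 : 0 ≤ D) (hD : ∀ x y : X, dist x y ≤ D)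
    (u v : ℕ → X) (n : ℕ) : 0 ≤ (∑ i ∈ Finset.range n, dist (u i) (v i)) / (n : ℝ) ∧
      (∑ i ∈ Finset.range n, dist (u i) (v i)) / (n : ℝ) ≤ D := by
  constructor
  · positivity
  · rcases Nat.eq_zero_or_pos n with h | h
    · subst h; simpa using hD0
    · have hn : (0:ℝ) < n := by exact_mod_cast h
      rw [div_le_iff₀ hn]
      calc _ ≤ ∑ i ∈ Finset.range n, D := Finset.sum_le_sum (fun i _ => hD _ _)
        _ = D * n := by simp [mul_comm]

/-- **Theorem.** Every factor of a system with the average shadowing property has the average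
shadowing property. -/
theorem result : ∀ (X Y : Type) [MetricSpace X] [CompactSpace X] [MetricSpace Y] [CompactSpace Y]
    (f : X → X) (g : Y → Y) (π : X → Y), Continuous f → Continuous g → Continuous π →
    Function.Surjective π → (∀ x, π (f x) = g (π x)) →
    AverageShadowingProperty f → AverageShadowingProperty g := by
  intro X Y _ _ _ _ f g π hf hg hπ hsurj hcomm hasp ε hε
  obtain ⟨K1, hK1, hproj⟩ := proj_bound π hπ (ε / 4) (by positivity)
  obtain ⟨δ', hδ', hasp'⟩ := hasp (ε / (4 * K1)) (by positivity)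
  obtain ⟨D, hD1, hD⟩ := exists_bound X
  obtain ⟨DY, hDY1, hDY⟩ := exists_bound Y
  obtain ⟨L, hL⟩ := exists_nat_gt (2 * D / δ')
  have hDδ : 0 < 2 * D / δ' := by positivity
  have hL0 : (0:ℝ) < L := hDδ.trans hL
  have hL1 : 1 ≤ L := by exact_mod_cast hL0
  obtain ⟨K2, hK2, herr⟩ := sum_err g hg L hL1 (ε / 8) (by positivity)
  refine ⟨ε / (8 * K2), by positivity, ?_⟩
  intro y hy
  choose a ha using fun m : ℕ => hsurj (y (L * m))
  -- the block orbit is a pseudo-orbit
  have hx : IsAveragePseudoOrbit f δ' (blk f a L) := by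
    refine ⟨L + 1, ?_⟩
    intro n hn k
    have hn0 : (0:ℝ) < n := by
      have : 0 < n := by omega
      exact_mod_cast this
    have hLn : (L:ℝ) < n := by exact_mod_cast (by omega : L < n)
    rw [div_lt_iff₀ hn0]
    have h1 : ∑ i ∈ Finset.range n, dist (f (blk f a L (i + k))) (blk f a L (i + k + 1))
        ≤ D * (n / L + 1) := by
      calc _ ≤ ∑ i ∈ Finset.range n, D * (if L ∣ i + k + 1 then (1:ℝ) else 0) :=
            Finset.sum_le_sum (fun i _ => blk_jump f a L (i + k) D hD)
        _ = D * ∑ i ∈ Finset.range n, (if L ∣ i + k + 1 then (1:ℝ) else 0) := by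
            rw [Finset.mul_sum]
        _ ≤ _ := by
            gcongr
            exact count_mult_le L k n hL1
    have h2 : 2 * D < δ' * L := by
      rw [div_lt_iff₀ hδ'] at hL
      linarith
    have h3 : (1:ℝ) ≤ n / L := by rw [le_div_iff₀ hL0]; linarith
    have h4 : D * (n / L + 1) ≤ 2 * D * (n / L) := by nlinarith
    have h5 : 2 * D * (n / L) < δ' * n := by
      calc 2 * D * ((n:ℝ) / L) < (δ' * L) * (n / L) := by
            apply mul_lt_mul_of_pos_right h2
            positivity
        _ = δ' * n := by field_simp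
    linarith
  obtain ⟨z, hz⟩ := hasp' _ hx
  refine ⟨π z, ?_⟩
  unfold ShadowedInAverage at hz ⊢
  have hev := eventually_lt_of_limsup_lt hz
    (isBoundedUnder_of ⟨D, fun n => (avg_bounds D (by linarith) hD _ _ n).2⟩)
  obtain ⟨N, hN⟩ := hy
  have hfin : ∀ᶠ n : ℕ in atTop,
      (∑ i ∈ Finset.range n, dist (g^[i] (π z)) (y i)) / (n : ℝ) ≤ 3 * ε / 4 := by
    filter_upwards [hev, eventually_ge_atTop N, eventually_gt_atTop 0] with n h1 h2 h3
    have hn0 : (0:ℝ) < n := by exact_mod_cast h3
    have h4 := hN n h2 0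
    simp only [add_zero] at h4
    rw [div_lt_iff₀ hn0] at h1 h4
    rw [div_le_iff₀ hn0]
    have hiter : ∀ i, g^[i] (π z) = π (f^[i] z) := by
      intro i
      induction i with
      | zero => rfl
      | succ i ih => rw [Function.iterate_succ_apply', Function.iterate_succ_apply', hcomm, ih]
    have hblk : ∀ i, π (blk f a L i) = g^[i % L] (y (L * (i / L))) := by
      intro i
      unfold blk
      have : ∀ r (x : X), π (f^[r] x) = g^[r] (π x) := by
        intro r x
        induction r with
        | zero => rfl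
        | succ r ih => rw [Function.iterate_succ_apply', Function.iterate_succ_apply', hcomm, ih]
      rw [this, ha]
    have h5 : ∑ i ∈ Finset.range n, dist (g^[i] (π z)) (y i) ≤
        ∑ i ∈ Finset.range n, ((ε / 4 + K1 * dist (f^[i] z) (blk f a L i)) +
          dist (y i) (g^[i % L] (y (L * (i / L))))) := by
      apply Finset.sum_le_sum
      intro i _
      rw [hiter]
      calc dist (π (f^[i] z)) (y i) ≤ dist (π (f^[i] z)) (π (blk f a L i))
            + dist (π (blk f a L i)) (y i) := dist_triangle _ _ _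
        _ ≤ _ := by
          gcongr
          · exact hproj _ _
          · rw [hblk, dist_comm]
    rw [Finset.sum_add_distrib, Finset.sum_add_distrib, ← Finset.mul_sum] at h5
    have h6 := herr y n
    simp only [Finset.sum_const, Finset.card_range, nsmul_eq_mul] at h5
    have h7 : K1 * ∑ i ∈ Finset.range n, dist (f^[i] z) (blk f a L i) ≤ K1 * (ε / (4 * K1) * n) :=
      mul_le_mul_of_nonneg_left h1.le hK1.le
    have h8 : K2 * ∑ j ∈ Finset.range n, jump g y j ≤ K2 * (ε / (8 * K2) * n) :=
      mul_le_mul_of_nonneg_left h4.le hK2.le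
    have h9 : K1 * (ε / (4 * K1) * n) = ε / 4 * n := by field_simp
    have h10 : K2 * (ε / (8 * K2) * n) = ε / 8 * n := by field_simp
    rw [h9] at h7
    rw [h10] at h8
    linarith
  refine lt_of_le_of_lt (limsup_le_of_le ?_ hfin) (by linarith)
  exact isCoboundedUnder_le_of_le atTop (x := 0)
    (fun n => (avg_bounds DY (by linarith) hDY _ _ n).1)

end Pool.Agent.Results.MP_bdee7b_an.AverageShadowing
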